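import Pool.Agent.PSA.Penult

/-!
# Trees of diameter at most 5
-/

open Finset

set_option autoImplicit false

namespace Pool.Agent.PSA

variable {V : Type} [Fintype V]

/-- If all edges whose two ends are not leaves and have the same colour have the same colour `c₀`,
then the number of classes drops by at most one. -/
theorem one_bad_colour (G : SimpleGraph V) (hV : Nonempty V) {k : ℕ} (c : V → Fin k) (c₀ : Fin k)
    (hfull : ∀ i j, i ≠ j → ∃ u v, c u = i ∧ c v = j ∧ G.Adj u v)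
    (hbad : ∀ x y, G.Adj x y → c x = c y → ¬ Leaf G x → ¬ Leaf G y → c x = c₀) :
    ∃ m, k ≤ m + 1 ∧ HasCC G m := by
  classical
  obtain ⟨n, rfl⟩ : ∃ n, k = n + 1 := ⟨k - 1, by have := c₀.pos; omega⟩
  rcases Nat.lt_or_ge n 2 with hn | hn
  · obtain ⟨m, hm, hcc⟩ := exists_hasCC G hV
    exact ⟨m, by omega, hcc⟩
  have hex : ∀ x, c x ≠ c₀ → ∃ z : Fin n, c₀.succAbove z = c x := fun x hx =>
    Fin.exists_succAbove_eq hx
  let d : V → Option ℕ := fun x =>
    if h : c x ≠ c₀ ∧ ¬ (Leaf G x ∧ ∃ y, G.Adj x y ∧ c y = c x) then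
      some ((hex x h.1).choose : ℕ) else none
  have hd : ∀ x i, d x = some i → ∃ h : i < n, c₀.succAbove ⟨i, h⟩ = c x ∧
      ¬ (Leaf G x ∧ ∃ y, G.Adj x y ∧ c y = c x) := by
    intro x i hx
    by_cases h : c x ≠ c₀ ∧ ¬ (Leaf G x ∧ ∃ y, G.Adj x y ∧ c y = c x)
    · simp only [d, dif_pos h] at hx
      have hx' := Option.some.inj hx
      refine ⟨hx' ▸ (hex x h.1).choose.2, ?_, h.2⟩
      exact (congrArg c₀.succAbove (Fin.ext hx'.symm)).trans (hex x h.1).choose_spec
    · simp only [d, dif_neg h] at hx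
      exact absurd hx (by simp)
  have hd' : ∀ x i (h : i < n), c₀.succAbove ⟨i, h⟩ = c x →
      ¬ (Leaf G x ∧ ∃ y, G.Adj x y ∧ c y = c x) → d x = some i := by
    intro x i h hx hl
    have hne : c x ≠ c₀ := by
      rw [← hx]
      exact Fin.succAbove_ne c₀ _
    have hcond : c x ≠ c₀ ∧ ¬ (Leaf G x ∧ ∃ y, G.Adj x y ∧ c y = c x) := ⟨hne, hl⟩
    simp only [d, dif_pos hcond]
    have h1 := (hex x hne).choose_spec
    have h2 : (hex x hne).choose = ⟨i, h⟩ := Fin.succAbove_right_injective (h1.trans hx.symm)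
    exact congrArg (fun z : Fin n => some (z : ℕ)) h2
  have hF : ∀ i j, i ≠ j → i < n → j < n → ∃ u v, d u = some i ∧ d v = some j ∧ G.Adj u v := by
    intro i j hij hi hj
    obtain ⟨u, v, hu, hv, huv⟩ := hfull (c₀.succAbove ⟨i, hi⟩) (c₀.succAbove ⟨j, hj⟩) (by
      intro h
      have := Fin.succAbove_right_injective h
      exact hij (congrArg Fin.val this))
    have hne : c u ≠ c v := by
      rw [hu, hv]
      intro h
      have := Fin.succAbove_right_injective h
      exact hij (congrArg Fin.val this)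
    refine ⟨u, v, hd' u i hi hu.symm ?_, hd' v j hj hv.symm ?_, huv⟩
    · rintro ⟨hl, y, hy, hcy⟩
      rw [hl.eq hy huv] at hcy
      exact hne hcy.symm
    · rintro ⟨hl, y, hy, hcy⟩
      rw [hl.eq hy huv.symm] at hcy
      exact hne hcy
  have hP : PCol G n d := by
    refine ⟨fun x i hx => (hd x i hx).1, ?_, ?_, ?_⟩
    · intro x y i hxy hx hy
      obtain ⟨h1, h2, h3⟩ := hd x i hx
      obtain ⟨h4, h5, h6⟩ := hd y i hy
      have hcc : c x = c y := by rw [← h2, ← h5]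
      by_cases hlx : Leaf G x
      · exact h3 ⟨hlx, y, hxy, hcc.symm⟩
      · by_cases hly : Leaf G y
        · exact h6 ⟨hly, x, hxy.symm, hcc⟩
        · have := hbad x y hxy hcc hlx hly
          rw [← h2] at this
          exact Fin.succAbove_ne c₀ _ this
    · intro i j hij hj
      exact hF i j hij.ne (hij.trans hj) hj
    · intro i hi
      obtain ⟨j, hj, hij⟩ : ∃ j, j < n ∧ i ≠ j := by
        rcases Nat.eq_zero_or_pos i with h | h
        · exact ⟨1, by omega, by omega⟩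
        · exact ⟨0, by omega, by omega⟩
      obtain ⟨u, _, hu, _, _⟩ := hF i j hij hi hj
      exact ⟨u, hu⟩
  obtain ⟨m, hm, hcc⟩ := hP.extend
  exact ⟨m, by omega, hcc⟩

/-- Trees of diameter at most 5. -/
theorem diam5 {T : SimpleGraph V} (hT : T.IsTree) (hd : ∀ u v, T.dist u v ≤ 5) {k : ℕ}
    (h : HasPC T k) : ∃ m, k ≤ m + 1 ∧ HasCC T m := by
  classical
  have hV : Nonempty V := hT.connected.nonempty
  obtain ⟨c, -, hfull⟩ := h
  by_cases hall : ∀ u v, T.Adj u v → c u = c v →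
      (∀ x, T.Adj u x → x ≠ v → Leaf T x) ∨ (∀ x, T.Adj v x → x ≠ u → Leaf T x)
  · exact penult T hV c hfull hall
  · push Not at hall
    obtain ⟨u, v, huv, hcc, ⟨u₁, hu₁, hu₁v, hlu⟩, ⟨v₁, hv₁, hv₁u, hlv⟩⟩ := hall
    obtain ⟨u₂, hu₂, hu₂u⟩ := exists_of_not_leaf hlu hu₁.symm
    obtain ⟨v₂, hv₂, hv₂v⟩ := exists_of_not_leaf hlv hv₁.symm
    refine one_bad_colour T hV c (c u) hfull fun x y hxy hxc hx hy => ?_
    rcases long_edge hT hd huv hu₁ hu₁v hu₂ hu₂u hv₁ hv₁u hv₂ hv₂v hxy hx hy with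
      rfl | rfl | rfl | rfl
    · rfl
    · exact hcc.symm
    · exact hxc
    · exact hxc.trans hcc.symm

end Pool.Agent.PSA
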