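import Mathlib

/-!
# Complete colourings: extension of partial colourings
-/

open Finset

set_option autoImplicit false

namespace Pool.Agent.PSA

/-- `G` has a complete partition of order `k`. -/
def HasPC {V : Type} (G : SimpleGraph V) (k : ℕ) : Prop :=
  ∃ c : V → Fin k, Function.Surjective c ∧
    ∀ i j : Fin k, i ≠ j → ∃ u v : V, c u = i ∧ c v = j ∧ G.Adj u v

/-- `G` has a complete proper colouring of order `m`. -/
def HasCC {V : Type} (G : SimpleGraph V) (m : ℕ) : Prop :=
  ∃ c : V → Fin m, Function.Surjective c ∧ (∀ u v : V, G.Adj u v → c u ≠ c v) ∧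
    ∀ i j : Fin m, i ≠ j → ∃ u v : V, c u = i ∧ c v = j ∧ G.Adj u v

/-- A partial proper complete colouring with colours `0, …, K - 1`. -/
structure PCol {V : Type} (G : SimpleGraph V) (K : ℕ) (c : V → Option ℕ) : Prop where
  lt : ∀ v i, c v = some i → i < K
  proper : ∀ u v i, G.Adj u v → c u = some i → c v ≠ some i
  full : ∀ i j, i < j → j < K → ∃ u v, c u = some i ∧ c v = some j ∧ G.Adj u v
  surj : ∀ i, i < K → ∃ v, c v = some i

variable {V : Type} [Fintype V]

open scoped Classical in
/-- The uncoloured vertices. -/
noncomputable def unc (c : V → Option ℕ) : Finset V := univ.filter fun v => c v = none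

lemma PCol.step {G : SimpleGraph V} {K : ℕ} {c : V → Option ℕ} (h : PCol G K c)
    {v : V} (hv : c v = none) :
    ∃ (K' : ℕ) (c' : V → Option ℕ), K ≤ K' ∧ PCol G K' c' ∧ (unc c').card < (unc c).card := by
  classical
  have hcard : ∀ i : ℕ, (unc (Function.update c v (some i))).card < (unc c).card := by
    intro i
    refine card_lt_card ?_
    rw [ssubset_iff_of_subset]
    · refine ⟨v, ?_, ?_⟩
      · simp only [unc, mem_filter, mem_univ, true_and, hv]
      · simp only [unc, mem_filter, mem_univ, true_and, Function.update_self]
        simp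
    · intro x hx
      simp only [unc, mem_filter, mem_univ, true_and] at hx ⊢
      by_cases hxv : x = v
      · subst hxv
        exact hv
      · rwa [Function.update_of_ne hxv] at hx
  have hold : ∀ (i : ℕ) (x : V) (j : ℕ), c x = some j →
      Function.update c v (some i) x = some j := by
    intro i x j hx
    have hxv : x ≠ v := by
      rintro rfl
      rw [hv] at hx
      exact absurd hx (by simp)
    rw [Function.update_of_ne hxv, hx]
  by_cases hex : ∃ i < K, ∀ u, G.Adj v u → c u ≠ some i
  · obtain ⟨i, hi, hu⟩ := hex
    refine ⟨K, Function.update c v (some i), le_rfl, ⟨?_, ?_, ?_, ?_⟩, hcard i⟩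
    · intro x j hx
      by_cases hxv : x = v
      · subst hxv
        rw [Function.update_self] at hx
        obtain rfl := Option.some.inj hx
        exact hi
      · rw [Function.update_of_ne hxv] at hx
        exact h.lt x j hx
    · intro x y j hxy hx hy
      by_cases hxv : x = v
      · subst hxv
        rw [Function.update_self] at hx
        obtain rfl := Option.some.inj hx
        rw [Function.update_of_ne hxy.ne'] at hy
        exact hu y hxy hy
      · rw [Function.update_of_ne hxv] at hx
        by_cases hyv : y = v
        · subst hyv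
          rw [Function.update_self] at hy
          obtain rfl := Option.some.inj hy
          exact hu x hxy.symm hx
        · rw [Function.update_of_ne hyv] at hy
          exact h.proper x y j hxy hx hy
    · intro a b hab hb
      obtain ⟨x, y, hx, hy, hxy⟩ := h.full a b hab hb
      exact ⟨x, y, hold i x a hx, hold i y b hy, hxy⟩
    · intro a ha
      obtain ⟨x, hx⟩ := h.surj a ha
      exact ⟨x, hold i x a hx⟩
  · push Not at hex
    refine ⟨K + 1, Function.update c v (some K), Nat.le_succ K, ⟨?_, ?_, ?_, ?_⟩, hcard K⟩
    · intro x j hx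
      by_cases hxv : x = v
      · subst hxv
        rw [Function.update_self] at hx
        obtain rfl := Option.some.inj hx
        exact Nat.lt_succ_self K
      · rw [Function.update_of_ne hxv] at hx
        exact Nat.lt_succ_of_lt (h.lt x j hx)
    · intro x y j hxy hx hy
      by_cases hxv : x = v
      · subst hxv
        rw [Function.update_self] at hx
        obtain rfl := Option.some.inj hx
        rw [Function.update_of_ne hxy.ne'] at hy
        exact absurd (h.lt y K hy) (lt_irrefl K)
      · rw [Function.update_of_ne hxv] at hx
        by_cases hyv : y = v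
        · subst hyv
          rw [Function.update_self] at hy
          obtain rfl := Option.some.inj hy
          exact absurd (h.lt x K hx) (lt_irrefl K)
        · rw [Function.update_of_ne hyv] at hy
          exact h.proper x y j hxy hx hy
    · intro a b hab hb
      rcases Nat.lt_succ_iff_lt_or_eq.1 hb with hb | rfl
      · obtain ⟨x, y, hx, hy, hxy⟩ := h.full a b hab hb
        exact ⟨x, y, hold K x a hx, hold K y b hy, hxy⟩
      · obtain ⟨u, hu, hu2⟩ := hex a hab
        exact ⟨u, v, hold b u a hu2, Function.update_self .., hu.symm⟩
    · intro a ha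
      rcases Nat.lt_succ_iff_lt_or_eq.1 ha with ha | rfl
      · obtain ⟨x, hx⟩ := h.surj a ha
        exact ⟨x, hold K x a hx⟩
      · exact ⟨v, Function.update_self ..⟩

/-- A partial proper complete colouring extends to a complete proper colouring. -/
theorem PCol.extend {G : SimpleGraph V} {K : ℕ} {c : V → Option ℕ} (h : PCol G K c) :
    ∃ m, K ≤ m ∧ HasCC G m := by
  classical
  induction hn : (unc c).card using Nat.strong_induction_on generalizing K c with
  | _ n ih =>
    by_cases hex : ∃ v, c v = none
    · obtain ⟨v, hv⟩ := hex
      obtain ⟨K', c', hK, h', hlt⟩ := h.step hv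
      obtain ⟨m, hm, hc⟩ := ih _ (hn ▸ hlt) h' rfl
      exact ⟨m, hK.trans hm, hc⟩
    · push Not at hex
      have hsome : ∀ v, ∃ i, c v = some i := fun v => Option.ne_none_iff_exists'.1 (hex v)
      choose d hd using hsome
      refine ⟨K, le_rfl, fun v => ⟨d v, h.lt v _ (hd v)⟩, ?_, ?_, ?_⟩
      · intro i
        obtain ⟨v, hv⟩ := h.surj i i.isLt
        refine ⟨v, Fin.ext ?_⟩
        exact Option.some.inj ((hd v).symm.trans hv)
      · intro u v huv heq
        have h1 : d u = d v := congrArg Fin.val heq
        exact h.proper u v (d u) huv (hd u) (by rw [hd v, h1])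
      · intro i j hij
        have key : ∀ i j : Fin K, i < j → ∃ u v : V, (⟨d u, h.lt u _ (hd u)⟩ : Fin K) = i ∧
            (⟨d v, h.lt v _ (hd v)⟩ : Fin K) = j ∧ G.Adj u v := by
          intro i j hij
          obtain ⟨u, v, hu, hv, huv⟩ := h.full i j hij j.isLt
          exact ⟨u, v, Fin.ext (Option.some.inj ((hd u).symm.trans hu)),
            Fin.ext (Option.some.inj ((hd v).symm.trans hv)), huv⟩
        rcases lt_or_gt_of_ne hij with hlt | hgt
        · exact key i j hlt
        · obtain ⟨u, v, hu, hv, huv⟩ := key j i hgt
          exact ⟨v, u, hv, hu, huv.symm⟩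

/-- Every nonempty graph has a complete proper colouring with at least one colour. -/
theorem exists_hasCC (G : SimpleGraph V) (hV : Nonempty V) : ∃ m, 1 ≤ m ∧ HasCC G m := by
  have h : PCol G 0 (fun _ : V => (none : Option ℕ)) := by
    refine ⟨?_, ?_, ?_, ?_⟩
    · intro v i hv
      exact absurd hv (by simp)
    · intro u v i _ hu
      exact absurd hu (by simp)
    · intro i j _ hj
      exact absurd hj (Nat.not_lt_zero j)
    · intro i hi
      exact absurd hi (Nat.not_lt_zero i)
  obtain ⟨m, _, c, hc⟩ := h.extend
  obtain ⟨v⟩ := hV
  exact ⟨m, lt_of_le_of_lt (Nat.zero_le _) (c v).isLt, c, hc⟩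

end Pool.Agent.PSA
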