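import Pool.Agent.PSA.Extend

/-!
# Colouring the leaves by Hall's theorem
-/

open Finset

set_option autoImplicit false

namespace Pool.Agent.PSA

variable {V : Type} [Fintype V]

open scoped Classical in
/-- The pairs in `X` realised by edges between the vertices outside `L`. -/
noncomputable def coreP (G : SimpleGraph V) (L : V → Prop) {K : ℕ} (g : V → Option (Fin K))
    (X : Finset (Fin K)) : Finset (Fin K × Fin K) :=
  (X ×ˢ X).filter fun q => q.1 < q.2 ∧
    ∃ u v, ¬ L u ∧ ¬ L v ∧ G.Adj u v ∧ g u = some q.1 ∧ g v = some q.2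

open scoped Classical in
/-- The leaves attached to the classes in `X`. -/
noncomputable def leafW (L : V → Prop) (nb : V → V) {K : ℕ} (g : V → Option (Fin K))
    (X : Finset (Fin K)) : Finset V :=
  univ.filter fun v => L v ∧ ∃ i ∈ X, g (nb v) = some i

lemma card_lt_pairs {K : ℕ} (X : Finset (Fin K)) :
    ((X ×ˢ X).filter fun q => q.1 < q.2).card = X.card.choose 2 := by
  classical
  have h1 : ((X ×ˢ X).filter fun q => q.1 < q.2).card = (X.powersetCard 2).card := by
    refine card_bij (fun q _ => {q.1, q.2}) ?_ ?_ ?_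
    · intro q hq
      rw [mem_filter, mem_product] at hq
      rw [mem_powersetCard]
      refine ⟨?_, card_pair hq.2.ne⟩
      intro x hx
      rw [mem_insert, mem_singleton] at hx
      rcases hx with rfl | rfl
      · exact hq.1.1
      · exact hq.1.2
    · intro q hq q' hq' heq
      rw [mem_filter] at hq hq'
      have h2 := hq.2
      have h3 := hq'.2
      have m1 : q.1 ∈ ({q'.1, q'.2} : Finset (Fin K)) := by
        rw [← heq]
        exact mem_insert_self _ _
      have m2 : q.2 ∈ ({q'.1, q'.2} : Finset (Fin K)) := by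
        rw [← heq]
        exact mem_insert_of_mem (mem_singleton_self _)
      have m3 : q'.1 ∈ ({q.1, q.2} : Finset (Fin K)) := by
        rw [heq]
        exact mem_insert_self _ _
      rw [mem_insert, mem_singleton] at m1 m2 m3
      rcases m1 with m1 | m1 <;> rcases m2 with m2 | m2
      · rw [m1, m2] at h2
        exact absurd h2 (lt_irrefl _)
      · exact Prod.ext m1 m2
      · rw [m1, m2] at h2
        exact absurd (h2.trans h3) (lt_irrefl _)
      · rw [m1, m2] at h2
        exact absurd h2 (lt_irrefl _)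
    · intro s hs
      rw [mem_powersetCard] at hs
      obtain ⟨x, y, hxy, rfl⟩ := card_eq_two.1 hs.2
      have hx : x ∈ X := hs.1 (mem_insert_self _ _)
      have hy : y ∈ X := hs.1 (mem_insert_of_mem (mem_singleton_self _))
      rcases lt_or_gt_of_ne hxy with h | h
      · exact ⟨(x, y), by rw [mem_filter, mem_product]; exact ⟨⟨hx, hy⟩, h⟩, rfl⟩
      · exact ⟨(y, x), by rw [mem_filter, mem_product]; exact ⟨⟨hy, hx⟩, h⟩, pair_comm y x⟩
  rw [h1, card_powersetCard]

/-- Hall's theorem for the leaves: a proper colouring `g` of the vertices outside `L` extends to a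
complete proper colouring with at least `K` colours. -/
theorem leaf_hall (G : SimpleGraph V) (hV : Nonempty V) (L : V → Prop) (nb : V → V)
    (hL : ∀ v, L v → ¬ L (nb v) ∧ ∀ x, G.Adj v x ↔ x = nb v) {K : ℕ} (g : V → Option (Fin K))
    (hg : ∀ u v i, ¬ L u → ¬ L v → G.Adj u v → g u = some i → g v ≠ some i)
    (hH : ∀ X : Finset (Fin K), X.card.choose 2 ≤ (leafW L nb g X).card + (coreP G L g X).card) :
    ∃ m, K ≤ m ∧ HasCC G m := by
  classical
  rcases Nat.lt_or_ge K 2 with hK | hK
  · obtain ⟨m, hm, hc⟩ := exists_hasCC G hV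
    exact ⟨m, by omega, hc⟩
  -- the missing pairs
  set I : Finset (Fin K × Fin K) := (univ.filter fun q => q.1 < q.2) \ coreP G L g univ with hI
  have hIm : ∀ q, q ∈ I ↔ q.1 < q.2 ∧ q ∉ coreP G L g univ := by
    intro q
    rw [hI, mem_sdiff, mem_filter]
    simp only [mem_univ, true_and]
  set t : I → Finset V := fun q => univ.filter fun v => L v ∧
    (g (nb v) = some q.1.1 ∨ g (nb v) = some q.1.2) with ht
  have hall : ∀ s : Finset I, s.card ≤ (s.biUnion t).card := by
    intro s
    set X : Finset (Fin K) := s.biUnion fun q => {q.1.1, q.1.2} with hX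
    have e1 : s.card = (s.map (Function.Embedding.subtype _)).card := (card_map _).symm
    have e2 : s.map (Function.Embedding.subtype _) ⊆
        ((X ×ˢ X).filter fun q => q.1 < q.2) \ coreP G L g X := by
      intro q hq
      rw [mem_map] at hq
      obtain ⟨q', hq', rfl⟩ := hq
      have hq'I := (hIm q'.1).1 q'.2
      have hx1 : q'.1.1 ∈ X := mem_biUnion.2 ⟨q', hq', mem_insert_self _ _⟩
      have hx2 : q'.1.2 ∈ X := mem_biUnion.2 ⟨q', hq', mem_insert_of_mem (mem_singleton_self _)⟩
      change (q'.1 : Fin K × Fin K) ∈ _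
      rw [mem_sdiff, mem_filter, mem_product]
      refine ⟨⟨⟨hx1, hx2⟩, hq'I.1⟩, fun hno => hq'I.2 ?_⟩
      unfold coreP at hno ⊢
      rw [mem_filter] at hno ⊢
      exact ⟨mem_product.2 ⟨mem_univ _, mem_univ _⟩, hno.2⟩
    have e3 : (((X ×ˢ X).filter fun q => q.1 < q.2) \ coreP G L g X).card =
        X.card.choose 2 - (coreP G L g X).card := by
      rw [card_sdiff_of_subset, card_lt_pairs]
      intro q hq
      unfold coreP at hq
      rw [mem_filter] at hq ⊢
      exact ⟨hq.1, hq.2.1⟩
    have e4 : leafW L nb g X ⊆ s.biUnion t := by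
      intro v hv
      unfold leafW at hv
      rw [mem_filter] at hv
      obtain ⟨_, hv1, i, hi, hv2⟩ := hv
      obtain ⟨q, hq, hiq⟩ := mem_biUnion.1 hi
      rw [mem_insert, mem_singleton] at hiq
      rw [mem_biUnion]
      refine ⟨q, hq, ?_⟩
      rw [ht, mem_filter]
      refine ⟨mem_univ _, hv1, ?_⟩
      rcases hiq with rfl | rfl
      · exact Or.inl hv2
      · exact Or.inr hv2
    have e5 := card_le_card e2
    have e6 := card_le_card e4
    have e7 := hH X
    omega
  obtain ⟨f, hf, hft⟩ := (all_card_le_biUnion_card_iff_exists_injective t).1 hall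
  have hf1 : ∀ q, L (f q) ∧ (g (nb (f q)) = some q.1.1 ∨ g (nb (f q)) = some q.1.2) := by
    intro q
    have := hft q
    rw [ht, mem_filter] at this
    exact this.2
  -- the colouring
  set c : V → Option ℕ := fun v => if L v then
    (if h : ∃ q, f q = v then
      (if g (nb v) = some h.choose.1.1 then some (h.choose.1.2 : ℕ) else some (h.choose.1.1 : ℕ))
      else none) else (g v).map (fun i : Fin K => (i : ℕ)) with hc
  have hcL : ∀ v, ¬ L v → c v = (g v).map (fun i : Fin K => (i : ℕ)) := fun v hv => by
    simp only [hc, if_neg hv]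
  have hcf : ∀ q, (g (nb (f q)) = some q.1.1 ∧ c (f q) = some (q.1.2 : ℕ)) ∨
      (g (nb (f q)) = some q.1.2 ∧ c (f q) = some (q.1.1 : ℕ)) := by
    intro q
    have hex : ∃ q', f q' = f q := ⟨q, rfl⟩
    have hq : hex.choose = q := hf hex.choose_spec
    have h1 : c (f q) = if g (nb (f q)) = some q.1.1 then some (q.1.2 : ℕ) else some (q.1.1 : ℕ) := by
      simp only [hc, if_pos (hf1 q).1, dif_pos hex, hq]
    rcases (hf1 q).2 with h2 | h2
    · left
      rw [h1, if_pos h2]
      exact ⟨h2, rfl⟩
    · right
      refine ⟨h2, ?_⟩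
      rw [h1, if_neg]
      intro h3
      rw [h2] at h3
      have h4 := (hIm q.1).1 q.2
      exact absurd (Option.some.inj h3) h4.1.ne'
  have hcnone : ∀ v, L v → (¬ ∃ q, f q = v) → c v = none := by
    intro v hv hno
    simp only [hc, if_pos hv, dif_neg hno]
  have hcol : PCol G K c := by
    have hprop : ∀ v x i, L v → G.Adj v x → c v = some i → c x ≠ some i := by
      intro v x i hv hvx hcv hcx
      have hx : x = nb v := ((hL v hv).2 x).1 hvx
      subst hx
      by_cases hex : ∃ q, f q = v
      · obtain ⟨q, rfl⟩ := hex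
        have h4 := (hIm q.1).1 q.2
        rw [hcL _ (hL _ hv).1] at hcx
        rcases hcf q with ⟨h1, h2⟩ | ⟨h1, h2⟩
        · rw [h1] at hcx
          rw [h2] at hcv
          have h5 := Option.some.inj hcv
          have h6 : (q.1.1 : ℕ) = i := Option.some.inj hcx
          have h7 := h4.1
          rw [Fin.lt_def] at h7
          omega
        · rw [h1] at hcx
          rw [h2] at hcv
          have h5 := Option.some.inj hcv
          have h6 : (q.1.2 : ℕ) = i := Option.some.inj hcx
          have h7 := h4.1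
          rw [Fin.lt_def] at h7
          omega
      · rw [hcnone v hv hex] at hcv
        exact absurd hcv (by simp)
    have hfull : ∀ i j : ℕ, i < j → j < K → ∃ u v, c u = some i ∧ c v = some j ∧ G.Adj u v := by
      intro i j hij hj
      set q : Fin K × Fin K := (⟨i, hij.trans hj⟩, ⟨j, hj⟩) with hq
      by_cases hqI : q ∈ I
      · have h1 := hcf ⟨q, hqI⟩
        have h2 := (hf1 ⟨q, hqI⟩).1
        have h3 := hL _ h2
        have hadj : G.Adj (f ⟨q, hqI⟩) (nb (f ⟨q, hqI⟩)) := (h3.2 _).2 rfl
        rcases h1 with ⟨h4, h5⟩ | ⟨h4, h5⟩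
        · refine ⟨nb (f ⟨q, hqI⟩), f ⟨q, hqI⟩, ?_, h5, hadj.symm⟩
          rw [hcL _ h3.1, h4]
          rfl
        · refine ⟨f ⟨q, hqI⟩, nb (f ⟨q, hqI⟩), h5, ?_, hadj⟩
          rw [hcL _ h3.1, h4]
          rfl
      · rw [hIm] at hqI
        push Not at hqI
        have h1 := hqI (Fin.lt_def.2 hij)
        unfold coreP at h1
        rw [mem_filter] at h1
        obtain ⟨_, _, u, v, hu, hv, huv, hgu, hgv⟩ := h1
        refine ⟨u, v, ?_, ?_, huv⟩
        · rw [hcL u hu, hgu]
          rfl
        · rw [hcL v hv, hgv]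
          rfl
    refine ⟨?_, ?_, hfull, ?_⟩
    · intro v i hv
      by_cases hLv : L v
      · by_cases hex : ∃ q, f q = v
        · obtain ⟨q, rfl⟩ := hex
          rcases hcf q with ⟨_, h2⟩ | ⟨_, h2⟩
          · rw [h2] at hv
            obtain rfl := Option.some.inj hv
            exact Fin.isLt _
          · rw [h2] at hv
            obtain rfl := Option.some.inj hv
            exact Fin.isLt _
        · rw [hcnone v hLv hex] at hv
          exact absurd hv (by simp)
      · rw [hcL v hLv] at hv
        obtain ⟨a, ha, rfl⟩ := Option.map_eq_some_iff.1 hv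
        exact a.isLt
    · intro u v i huv hu hv
      by_cases hLu : L u
      · exact hprop u v i hLu huv hu hv
      · by_cases hLv : L v
        · exact hprop v u i hLv huv.symm hv hu
        · rw [hcL u hLu] at hu
          rw [hcL v hLv] at hv
          obtain ⟨a, ha, ha2⟩ := Option.map_eq_some_iff.1 hu
          obtain ⟨b, hb, hb2⟩ := Option.map_eq_some_iff.1 hv
          have hab : a = b := Fin.ext (ha2.trans hb2.symm)
          subst hab
          exact hg u v a hLu hLv huv ha hb
    · intro i hi
      rcases Nat.lt_or_ge (i + 1) K with h1 | h1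
      · obtain ⟨u, v, hu, _, _⟩ := hfull i (i + 1) (Nat.lt_succ_self i) h1
        exact ⟨u, hu⟩
      · obtain ⟨u, v, _, hv, _⟩ := hfull 0 i (by omega) hi
        exact ⟨v, hv⟩
  exact hcol.extend

end Pool.Agent.PSA
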