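import Mathlib

/-!
# The longest-processing-time greedy assignment with conflicts along a forest
-/

open Finset

set_option autoImplicit false

namespace Pool.Agent.PSA

/-- A forest has an orientation in which every vertex has at most one parent. -/
theorem exists_parent {V : Type} (G : SimpleGraph V) (hG : G.IsAcyclic) :
    ∃ par : V → V, ∀ u v, G.Adj u v → par u = v ∨ par v = u := by
  classical
  have hex : ∀ v : V, ∃ p : G.Walk (G.connectedComponentMk v).nonempty_supp.some v, p.IsPath := by
    intro v
    have h1 : (G.connectedComponentMk v).nonempty_supp.some ∈ (G.connectedComponentMk v).supp :=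
      (G.connectedComponentMk v).nonempty_supp.some_mem
    have h2 : G.Reachable (G.connectedComponentMk v).nonempty_supp.some v :=
      SimpleGraph.ConnectedComponent.exact h1
    exact ⟨h2.some.toPath, h2.some.toPath.2⟩
  choose p hp using hex
  have key : ∀ (r r' : V) (_ : r = r') (v w : V) (p : G.Walk r v) (q : G.Walk r' w), p.IsPath →
      q.IsPath → G.Adj v w → p.penultimate = w ∨ q.penultimate = v := by
    rintro r _ rfl v w p q hp hq hvw
    by_cases hw : w ∈ p.support
    · exact Or.inl (hG.eq_penultimate_of_adj_end hp hvw hw).symm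
    · right
      have h3 := hG.mem_support_of_ne_mem_support_of_adj_of_isPath hq hp hvw.symm hw
      exact (hG.eq_penultimate_of_adj_end hq hvw.symm h3).symm
  refine ⟨fun v => (p v).penultimate, fun u v huv => ?_⟩
  have h1 : G.connectedComponentMk u = G.connectedComponentMk v :=
    SimpleGraph.ConnectedComponent.sound huv.reachable
  exact key _ _ (by rw [h1]) u v (p u) (p v) (hp u) (hp v) huv

section Greedy

variable {V : Type} [Fintype V]

/-- A ranking by decreasing weight. -/
theorem exists_rank (w : V → ℕ) :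
    ∃ r : V → ℕ, Function.Injective r ∧ ∀ u v, r u < r v → w v ≤ w u := by
  classical
  set n := Fintype.card V with hn
  set e := Fintype.equivFin V with he
  set N := ∑ v, w v with hN
  have hwN : ∀ v, w v ≤ N := fun v => single_le_sum (fun i _ => Nat.zero_le (w i)) (mem_univ v)
  have key : ∀ u v, (N - w u) * n + e u ≤ (N - w v) * n + e v → N - w u ≤ N - w v := by
    intro u v huv
    by_contra hlt
    push Not at hlt
    have h1 : (N - w v + 1) * n ≤ (N - w u) * n := Nat.mul_le_mul_right _ hlt
    have h2 : (e v : ℕ) < n := (e v).isLt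
    rw [add_mul, one_mul] at h1
    omega
  refine ⟨fun v => (N - w v) * n + e v, ?_, ?_⟩
  · intro u v huv
    have huv' : (N - w u) * n + e u = (N - w v) * n + e v := huv
    have h1 := key u v huv'.le
    have h2 := key v u huv'.ge
    have h3 : N - w u = N - w v := le_antisymm h1 h2
    rw [h3] at huv'
    have h4 : (e u : ℕ) = e v := Nat.add_left_cancel huv'
    exact e.injective (Fin.ext h4)
  · intro u v huv
    have h1 := key u v (le_of_lt huv)
    have h2 := hwN u
    have h3 := hwN v
    omega

open scoped Classical in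
/-- The load of bin `i` just before `v` is processed. -/
noncomputable def ldv {m : ℕ} (w r : V → ℕ) (g : V → Option (Fin m)) (v : V) (i : Fin m) : ℕ :=
  ∑ u with (r u < r v ∧ g u = some i), w u

/-- Bin `i` is available for `v`. -/
def av {m : ℕ} (G : SimpleGraph V) (r : V → ℕ) (g : V → Option (Fin m)) (v : V) (i : Fin m) :
    Prop :=
  ∀ u, r u < r v → G.Adj v u → g u ≠ some i

/-- The greedy assignment. -/
theorem exists_greedy {m : ℕ} (G : SimpleGraph V) (w r : V → ℕ) :
    ∃ g : V → Option (Fin m), ∀ v,
      (∀ i, g v = some i → av G r g v i ∧ ∀ j, av G r g v j → ldv w r g v i ≤ ldv w r g v j) ∧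
      (g v = none → ∀ j, ¬ av G r g v j) := by
  classical
  have hwf : WellFounded fun u v : V => r u < r v := InvImage.wf r Nat.lt_wfRel.wf
  let good : (v : V) → ((u : V) → r u < r v → Option (Fin m)) → Fin m → Prop :=
    fun v h i => (∀ u (hu : r u < r v), G.Adj v u → h u hu ≠ some i) ∧
      ∀ j, (∀ u (hu : r u < r v), G.Adj v u → h u hu ≠ some j) →
        (∑ u, if hu : r u < r v then (if h u hu = some i then w u else 0) else 0) ≤
        (∑ u, if hu : r u < r v then (if h u hu = some j then w u else 0) else 0)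
  let F : (v : V) → ((u : V) → r u < r v → Option (Fin m)) → Option (Fin m) :=
    fun v h => if hex : ∃ i, good v h i then some hex.choose else none
  set g : V → Option (Fin m) := hwf.fix F with hg
  have hfix : ∀ v, g v = F v (fun u _ => g u) := fun v => hwf.fix_eq F v
  have hld : ∀ v i, (∑ u, if _ : r u < r v then (if g u = some i then w u else 0) else 0) =
      ldv w r g v i := by
    intro v i
    unfold ldv
    rw [sum_filter]
    refine sum_congr rfl fun u _ => ?_
    by_cases h1 : r u < r v <;> by_cases h2 : g u = some i <;> simp [h1, h2]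
  have hgood : ∀ v i, good v (fun u _ => g u) i ↔
      (av G r g v i ∧ ∀ j, av G r g v j → ldv w r g v i ≤ ldv w r g v j) := by
    intro v i
    simp only [good, hld, av]
  refine ⟨g, fun v => ⟨fun i hi => ?_, fun hnone j hj => ?_⟩⟩
  · rw [hfix] at hi
    simp only [F] at hi
    split_ifs at hi with hex
    have h1 := hex.choose_spec
    have h2 := Option.some.inj hi
    rw [h2] at h1
    exact (hgood v i).1 h1
  · obtain ⟨i, hi, hmin⟩ := exists_min_image (univ.filter fun i => av G r g v i)
      (fun i => ldv w r g v i) ⟨j, mem_filter.2 ⟨mem_univ _, hj⟩⟩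
    have h1 : good v (fun u _ => g u) i := by
      rw [hgood]
      refine ⟨(mem_filter.1 hi).2, fun j' hj' => hmin j' (mem_filter.2 ⟨mem_univ _, hj'⟩)⟩
    rw [hfix] at hnone
    simp only [F] at hnone
    rw [dif_pos ⟨i, h1⟩] at hnone
    exact absurd hnone (by simp)

open scoped Classical in
/-- **The greedy assignment is balanced.** -/
theorem lpt {m : ℕ} (G : SimpleGraph V) (par : V → V)
    (hpar : ∀ u v, G.Adj u v → par u = v ∨ par v = u) (w : V → ℕ)
    (hN : ∀ Y : Finset V, (m + 1 - Y.card).choose 2 ≤ ∑ v with v ∉ Y, w v) :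
    ∃ g : V → Option (Fin m), (∀ u v i, G.Adj u v → g u = some i → g v ≠ some i) ∧
      ∀ X : Finset (Fin m), X.card.choose 2 ≤ ∑ v with (∃ i ∈ X, g v = some i), w v := by
  classical
  obtain ⟨r, hrinj, hrw⟩ := exists_rank w
  obtain ⟨g, hg⟩ := exists_greedy (m := m) G w r
  have hproper : ∀ u v i, G.Adj u v → g u = some i → g v ≠ some i := by
    intro u v i huv hu hv
    have hne : r u ≠ r v := fun h => huv.ne (hrinj h)
    rcases lt_or_gt_of_ne hne with h | h
    · exact ((hg v).1 i hv).1 u h huv.symm hu
    · exact ((hg u).1 i hu).1 v h huv hv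
  refine ⟨g, hproper, ?_⟩
  -- loads
  set ld : Fin m → ℕ := fun i => ∑ v with g v = some i, w v with hld
  have hW : ∀ X : Finset (Fin m), ∑ v with (∃ i ∈ X, g v = some i), w v = ∑ i ∈ X, ld i := by
    intro X
    simp only [hld, sum_filter]
    rw [sum_comm]
    refine sum_congr rfl fun v _ => ?_
    by_cases hv : ∃ i ∈ X, g v = some i
    · rw [if_pos hv]
      obtain ⟨i, hi, hgi⟩ := hv
      rw [sum_eq_single_of_mem i hi]
      · rw [if_pos hgi]
      · intro j _ hji
        rw [if_neg]
        intro h
        rw [hgi] at h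
        exact hji (Option.some.inj h).symm
    · rw [if_neg hv]
      symm
      refine sum_eq_zero fun i hi => if_neg fun h => hv ⟨i, hi, h⟩
  have hldv : ∀ v i, ldv w r g v i ≤ ld i := by
    intro v i
    unfold ldv
    refine sum_le_sum_of_subset fun u hu => ?_
    rw [mem_filter] at hu ⊢
    exact ⟨hu.1, hu.2.2⟩
  by_contra hcon
  push Not at hcon
  obtain ⟨X0, hX0⟩ := hcon
  obtain ⟨R, hR1⟩ : ∃ R : Finset (Fin m), ∑ i ∈ R, ld i < R.card.choose 2 :=
    ⟨X0, by rw [← hW]; exact hX0⟩
  set ρ := R.card with hρ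
  have hch : ∀ n : ℕ, (n + 1).choose 2 = n.choose 2 + n := by
    intro n
    rw [Nat.choose_succ_succ' n 1, Nat.choose_one_right, add_comm]
  have hch2 : ∀ n : ℕ, 2 * n.choose 2 + n = n * n := by
    intro n
    induction n with
    | zero => simp
    | succ n ih =>
      rw [hch]
      nlinarith
  have hρ2 : 2 ≤ ρ := by
    by_contra hlt
    have h0 : ρ.choose 2 = 0 := Nat.choose_eq_zero_of_lt (by omega)
    rw [h0] at hR1
    exact absurd hR1 (Nat.not_lt_zero _)
  -- (1) loads outside `R` are large: not needed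
  -- (2) two light bins in `R`
  obtain ⟨p, hp, q, hq, hpq, hp2, hq2⟩ : ∃ p ∈ R, ∃ q ∈ R, p ≠ q ∧ 2 * ld p ≤ ρ ∧ 2 * ld q ≤ ρ := by
    set S := R.filter fun i => 2 * ld i ≤ ρ with hS
    by_cases hcard : 1 < S.card
    · obtain ⟨p, hp, q, hq, hpq⟩ := one_lt_card.1 hcard
      rw [hS, mem_filter] at hp hq
      exact ⟨p, hp.1, q, hq.1, hpq, hp.2, hq.2⟩
    · exfalso
      push Not at hcard
      have h1 : (R \ S).card * (ρ + 1) ≤ ∑ i ∈ R \ S, 2 * ld i := by
        rw [← smul_eq_mul, ← sum_const]
        refine sum_le_sum fun i hi => ?_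
        rw [mem_sdiff, hS, mem_filter] at hi
        have h2 := hi.2
        by_contra hlt
        push Not at hlt
        exact h2 ⟨hi.1, by omega⟩
      have h2 : ∑ i ∈ R \ S, 2 * ld i ≤ 2 * ∑ i ∈ R, ld i := by
        rw [mul_sum]
        exact sum_le_sum_of_subset sdiff_subset
      have h3 : (R \ S).card = ρ - S.card := by
        rw [card_sdiff_of_subset (filter_subset _ _)]
      have h4 : (ρ - 1) * (ρ + 1) ≤ (R \ S).card * (ρ + 1) := by
        rw [h3]
        exact Nat.mul_le_mul_right _ (by omega)
      have h5 := hch2 ρ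
      obtain ⟨t, ht⟩ : ∃ t, ρ = t + 1 := ⟨ρ - 1, by omega⟩
      rw [ht, Nat.add_sub_cancel] at h4
      rw [ht] at h5 h1 hR1
      have h6 : t * (t + 1 + 1) ≤ 2 * ∑ i ∈ R, ld i := h4.trans (h1.trans h2)
      nlinarith
  -- (3) the blocked vertices
  set B : Finset V := univ.filter fun v => g v = none ∨ ∃ b, b ∉ R ∧ g v = some b ∧
    ρ < 2 * ldv w r g v b with hB
  have hblock : ∀ v ∈ B, ∀ s ∈ R, 2 * ld s ≤ ρ → ∃ u, r u < r v ∧ G.Adj v u ∧ g u = some s := by
    intro v hv s hs hs2
    have hnav : ¬ av G r g v s := by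
      intro hav
      rw [hB, mem_filter] at hv
      rcases hv.2 with hnone | ⟨b, _, hvb, hlt⟩
      · exact (hg v).2 hnone s hav
      · have h1 := ((hg v).1 b hvb).2 s hav
        have h2 := hldv v s
        omega
    unfold av at hnav
    push Not at hnav
    exact hnav
  have hchild : ∀ v ∈ B, ∃ u, par u = v ∧ (g u = some p ∨ g u = some q) ∧ w v ≤ w u := by
    intro v hv
    obtain ⟨u1, hu1, ha1, hg1⟩ := hblock v hv p hp hp2
    obtain ⟨u2, hu2, ha2, hg2⟩ := hblock v hv q hq hq2
    have hne : u1 ≠ u2 := by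
      rintro rfl
      rw [hg1] at hg2
      exact hpq (Option.some.inj hg2)
    rcases hpar v u1 ha1 with h1 | h1
    · rcases hpar v u2 ha2 with h2 | h2
      · exact absurd (h1.symm.trans h2) hne
      · exact ⟨u2, h2, Or.inr hg2, hrw u2 v hu2⟩
    · exact ⟨u1, h1, Or.inl hg1, hrw u1 v hu1⟩
  have hBsum : ∑ v ∈ B, w v ≤ ρ := by
    have h1 : ∑ v ∈ B, w v ≤ ∑ v ∈ B, ∑ u with (g u = some p ∨ g u = some q) ∧ par u = v, w u := by
      refine sum_le_sum fun v hv => ?_
      obtain ⟨u, hu1, hu2, hu3⟩ := hchild v hv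
      refine hu3.trans ?_
      exact single_le_sum (f := w) (fun i _ => Nat.zero_le (w i))
        (mem_filter.2 ⟨mem_univ u, hu2, hu1⟩)
    have h2 : ∑ v ∈ B, ∑ u with (g u = some p ∨ g u = some q) ∧ par u = v, w u ≤
        ∑ v, ∑ u with (g u = some p ∨ g u = some q) ∧ par u = v, w u :=
      sum_le_sum_of_subset (subset_univ _)
    have h3 : ∑ v, ∑ u with (g u = some p ∨ g u = some q) ∧ par u = v, w u =
        ∑ u with (g u = some p ∨ g u = some q), w u := by
      have h4 := sum_fiberwise (univ.filter fun u => g u = some p ∨ g u = some q) par w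
      rw [← h4]
      refine sum_congr rfl fun v _ => ?_
      rw [filter_filter]
    have h4 : ∑ u with (g u = some p ∨ g u = some q), w u ≤ ld p + ld q := by
      rw [filter_or]
      have h5 := sum_union_inter (s₁ := univ.filter fun u => g u = some p)
        (s₂ := univ.filter fun u => g u = some q) (f := w)
      simp only [hld]
      omega
    omega
  -- (4) the unblocked vertices in one bin outside `R`
  set N : Fin m → Finset V := fun b => univ.filter fun v => g v = some b ∧ 2 * ldv w r g v b ≤ ρ
    with hNdef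
  have hNsum : ∀ b, 2 ≤ (N b).card → ∑ v ∈ N b, w v ≤ ρ := by
    intro b hb
    have hne : (N b).Nonempty := card_pos.1 (by omega)
    obtain ⟨v, hv, hvmax⟩ := exists_max_image (N b) r hne
    have hvN := hv
    rw [hNdef, mem_filter] at hvN
    have hsub : (N b).erase v ⊆ univ.filter fun u => r u < r v ∧ g u = some b := by
      intro u hu
      rw [mem_erase] at hu
      have hu2 := hu.2
      rw [hNdef, mem_filter] at hu2
      rw [mem_filter]
      refine ⟨mem_univ _, lt_of_le_of_ne (hvmax u hu.2) (fun h => hu.1 (hrinj h)), hu2.2.1⟩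
    have h1 : ∑ u ∈ (N b).erase v, w u ≤ ldv w r g v b := sum_le_sum_of_subset hsub
    have hcard : 0 < ((N b).erase v).card := by
      rw [card_erase_of_mem hv]
      omega
    obtain ⟨u, hu⟩ := card_pos.1 hcard
    have h2 : w u ≤ ∑ u ∈ (N b).erase v, w u := single_le_sum (fun i _ => Nat.zero_le (w i)) hu
    have h3 := mem_filter.1 (hsub hu)
    have h4 : w v ≤ w u := hrw u v h3.2.1
    have h5 : ∑ u ∈ N b, w u = ∑ u ∈ (N b).erase v, w u + w v := (sum_erase_add _ _ hv).symm
    have h6 := hvN.2.2
    omega
  -- (5) the count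
  set Out1 : Finset (Fin m) := univ.filter fun b => b ∉ R ∧ (N b).card < 2 with hOut1
  set Out2 : Finset (Fin m) := univ.filter fun b => b ∉ R ∧ ¬ (N b).card < 2 with hOut2
  have hcards : ρ + Out1.card + Out2.card = m := by
    have h1 : (univ.filter fun b : Fin m => b ∈ R).card + (univ.filter fun b : Fin m => b ∉ R).card
        = (univ : Finset (Fin m)).card := card_filter_add_card_filter_not _
    have h2 : (univ.filter fun b : Fin m => b ∈ R) = R := filter_univ_mem R
    have h3 := card_filter_add_card_filter_not (s := univ.filter fun b : Fin m => b ∉ R)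
      (fun b => (N b).card < 2)
    rw [filter_filter, filter_filter] at h3
    rw [h2, card_univ, Fintype.card_fin] at h1
    have h4 : Out1.card + Out2.card = (univ.filter fun b : Fin m => b ∉ R).card := h3
    omega
  set Y : Finset V := Out1.biUnion N with hY
  have hYcard : Y.card ≤ Out1.card := by
    refine card_biUnion_le.trans ?_
    rw [← mul_one (Out1.card), ← smul_eq_mul, ← sum_const]
    refine sum_le_sum fun b hb => ?_
    rw [hOut1, mem_filter] at hb
    omega
  have hcover : (univ.filter fun v => v ∉ Y) ⊆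
      ((univ.filter fun v => ∃ i ∈ R, g v = some i) ∪ B) ∪ Out2.biUnion N := by
    intro v hv
    rw [mem_filter] at hv
    rw [mem_union, mem_union]
    rcases hgv : g v with _ | b
    · left
      right
      rw [hB, mem_filter]
      exact ⟨mem_univ _, Or.inl hgv⟩
    · by_cases hbR : b ∈ R
      · left
        left
        rw [mem_filter]
        exact ⟨mem_univ _, b, hbR, hgv⟩
      · by_cases hlt : ρ < 2 * ldv w r g v b
        · left
          right
          rw [hB, mem_filter]
          exact ⟨mem_univ _, Or.inr ⟨b, hbR, hgv, hlt⟩⟩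
        · have hvN : v ∈ N b := by
            rw [hNdef, mem_filter]
            exact ⟨mem_univ _, hgv, by omega⟩
          right
          rw [mem_biUnion]
          refine ⟨b, ?_, hvN⟩
          rw [hOut2, mem_filter]
          refine ⟨mem_univ _, hbR, fun hlt2 => hv.2 ?_⟩
          rw [hY, mem_biUnion]
          refine ⟨b, ?_, hvN⟩
          rw [hOut1, mem_filter]
          exact ⟨mem_univ _, hbR, hlt2⟩
  have hsum2 : ∑ v ∈ Out2.biUnion N, w v ≤ Out2.card * ρ := by
    have h1 : ∑ v ∈ Out2.biUnion N, w v ≤ ∑ b ∈ Out2, ∑ v ∈ N b, w v := by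
      have hdisj : (Out2 : Set (Fin m)).PairwiseDisjoint N := by
        intro a _ b _ hab
        rw [Function.onFun, disjoint_left]
        intro v hva hvb
        rw [hNdef, mem_filter] at hva hvb
        exact hab (Option.some.inj (hva.2.1.symm.trans hvb.2.1))
      rw [sum_biUnion hdisj]
    refine h1.trans ?_
    rw [← smul_eq_mul, ← sum_const]
    refine sum_le_sum fun b hb => hNsum b ?_
    rw [hOut2, mem_filter] at hb
    omega
  have h1 := hN Y
  have h2 : ∑ v with v ∉ Y, w v ≤ ∑ i ∈ R, ld i + ρ + Out2.card * ρ := by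
    refine (sum_le_sum_of_subset hcover).trans ?_
    have h3 : ∑ v ∈ ((univ.filter fun v => ∃ i ∈ R, g v = some i) ∪ B) ∪ Out2.biUnion N, w v ≤
        ∑ v ∈ ((univ.filter fun v => ∃ i ∈ R, g v = some i) ∪ B), w v +
        ∑ v ∈ Out2.biUnion N, w v := by
      rw [← sum_union_inter]
      exact Nat.le_add_right _ _
    have h4 : ∑ v ∈ ((univ.filter fun v => ∃ i ∈ R, g v = some i) ∪ B), w v ≤
        ∑ v with (∃ i ∈ R, g v = some i), w v + ∑ v ∈ B, w v := by
      rw [← sum_union_inter]
      exact Nat.le_add_right _ _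
    rw [hW] at h4
    omega
  set z := Out2.card with hz
  have h3 : ρ + 1 + z ≤ m + 1 - Y.card := by omega
  have h4 : (ρ + 1 + z).choose 2 ≤ (m + 1 - Y.card).choose 2 := Nat.choose_le_choose 2 h3
  have h5 := hch2 (ρ + 1 + z)
  have h6 := hch2 ρ
  nlinarith

end Greedy

end Pool.Agent.PSA
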