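import Pool.Agent.PSA.LeafHall

/-!
# The shift argument
-/

open Finset

set_option autoImplicit false

namespace Pool.Agent.PSA

variable {V : Type} [Fintype V]

open scoped Classical in
/-- The shift argument: `A` is a set of vertices such that the edges outside `L` between two
classes do not leave `A` or its complement, and the edges outside `L` inside a class join `A` to its
complement. -/
theorem parity (G : SimpleGraph V) (hV : Nonempty V) (L : V → Prop) (nb : V → V)
    (hL : ∀ v, L v → ¬ L (nb v) ∧ ∀ x, G.Adj v x ↔ x = nb v) (A : V → Prop) {k : ℕ} (c : V → Fin k)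
    (hgood : ∀ u v, ¬ L u → ¬ L v → G.Adj u v → c u ≠ c v → (A u ↔ A v))
    (hbad : ∀ u v, ¬ L u → ¬ L v → G.Adj u v → c u = c v → (A u ↔ ¬ A v))
    (hfull : ∀ i j, i ≠ j → ∃ u v, c u = i ∧ c v = j ∧ G.Adj u v ∧ ((A u ∧ A v) ∨ L u ∨ L v)) :
    ∃ m, k ≤ m + 1 ∧ HasCC G m := by
  classical
  rcases k with _ | K
  · obtain ⟨m, _, hc⟩ := exists_hasCC G hV
    exact ⟨m, by omega, hc⟩
  set b : Fin (K + 1) → ℕ := fun i =>
    (univ.filter fun v => L v ∧ ¬ A (nb v) ∧ c (nb v) = i).card with hb
  set e : Equiv.Perm (Fin (K + 1)) := Tuple.sort b with he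
  have hmono : Monotone (b ∘ e) := Tuple.monotone_sort b
  set pos : V → Fin (K + 1) := fun v => e.symm (c v) with hpos
  have hposc : ∀ u v, pos u = pos v ↔ c u = c v := by
    intro u v
    simp only [hpos, e.symm.injective.eq_iff]
  set g : V → Option (Fin K) := fun v =>
    if A v then (if h : (pos v : ℕ) < K then some ⟨pos v, h⟩ else none) else
      (if h : 0 < (pos v : ℕ) then some ⟨pos v - 1, by have := (pos v).isLt; omega⟩ else none)
    with hgdef
  have gA : ∀ v i, A v → (g v = some i ↔ pos v = i.castSucc) := by
    intro v i hv
    simp only [hgdef, if_pos hv]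
    by_cases h : (pos v : ℕ) < K
    · rw [dif_pos h]
      constructor
      · intro h2
        have h3 := Option.some.inj h2
        rw [← h3]
        exact Fin.ext rfl
      · intro h2
        congr 1
        rw [Fin.ext_iff] at h2 ⊢
        exact h2
    · rw [dif_neg h]
      constructor
      · intro h2
        exact absurd h2 (by simp)
      · intro h2
        rw [h2] at h
        exact absurd i.isLt h
  have gB : ∀ v i, ¬ A v → (g v = some i ↔ pos v = i.succ) := by
    intro v i hv
    simp only [hgdef, if_neg hv]
    by_cases h : 0 < (pos v : ℕ)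
    · rw [dif_pos h]
      constructor
      · intro h2
        have h3 := Option.some.inj h2
        rw [← h3, Fin.ext_iff]
        change (pos v : ℕ) = (pos v : ℕ) - 1 + 1
        omega
      · intro h2
        congr 1
        rw [Fin.ext_iff] at h2 ⊢
        change (pos v : ℕ) - 1 = i
        change (pos v : ℕ) = (i : ℕ) + 1 at h2
        omega
    · rw [dif_neg h]
      constructor
      · intro h2
        exact absurd h2 (by simp)
      · intro h2
        rw [h2] at h
        exact absurd (Nat.succ_pos _) h
  have hm := leaf_hall G hV L nb hL g ?_ ?_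
  · obtain ⟨m, hm, hc⟩ := hm
    exact ⟨m, by omega, hc⟩
  · -- proper
    intro u v i hu hv huv hgu hgv
    by_cases hAu : A u
    · rw [gA u i hAu] at hgu
      by_cases hAv : A v
      · rw [gA v i hAv] at hgv
        have hcc : c u = c v := (hposc u v).1 (hgu.trans hgv.symm)
        exact (hbad u v hu hv huv hcc).1 hAu hAv
      · rw [gB v i hAv] at hgv
        have hcc : c u = c v := by
          by_contra hne
          exact hAv ((hgood u v hu hv huv hne).1 hAu)
        have h1 := (hposc u v).2 hcc
        rw [hgu, hgv, Fin.ext_iff] at h1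
        change (i : ℕ) = (i : ℕ) + 1 at h1
        omega
    · rw [gB u i hAu] at hgu
      by_cases hAv : A v
      · rw [gA v i hAv] at hgv
        have hcc : c u = c v := by
          by_contra hne
          exact hAu ((hgood u v hu hv huv hne).2 hAv)
        have h1 := (hposc u v).2 hcc
        rw [hgu, hgv, Fin.ext_iff] at h1
        change (i : ℕ) + 1 = (i : ℕ) at h1
        omega
      · rw [gB v i hAv] at hgv
        have hcc : c u = c v := (hposc u v).1 (hgu.trans hgv.symm)
        have h1 := hbad u v hu hv huv hcc
        exact hAu (h1.2 hAv)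
  · -- Hall's condition
    intro X
    set Y : Finset V := X.biUnion fun i => univ.filter fun v => L v ∧ pos (nb v) = i.castSucc with hY
    have hYW : Y.card ≤ (leafW L nb g X).card := by
      have e1 : leafW L nb g X = X.biUnion fun i => univ.filter fun v => L v ∧
          g (nb v) = some i := by
        ext v
        unfold leafW
        simp only [mem_filter, mem_univ, true_and, mem_biUnion]
        constructor
        · rintro ⟨h1, i, hi, h2⟩
          exact ⟨i, hi, h1, h2⟩
        · rintro ⟨i, hi, h1, h2⟩
          exact ⟨h1, i, hi, h2⟩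
      have e2 : (leafW L nb g X).card = ∑ i ∈ X, (univ.filter fun v => L v ∧
          g (nb v) = some i).card := by
        rw [e1, card_biUnion]
        intro i _ j _ hij
        rw [Function.onFun, disjoint_left]
        intro v hv hv'
        rw [mem_filter] at hv hv'
        exact hij (Option.some.inj (hv.2.2.symm.trans hv'.2.2))
      rw [e2]
      refine card_biUnion_le.trans (sum_le_sum fun i _ => ?_)
      have e3 : (univ.filter fun v => L v ∧ pos (nb v) = i.castSucc).card =
          (univ.filter fun v => L v ∧ A (nb v) ∧ pos (nb v) = i.castSucc).card +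
          (univ.filter fun v => L v ∧ ¬ A (nb v) ∧ pos (nb v) = i.castSucc).card := by
        rw [← card_union_of_disjoint]
        · congr 1
          ext v
          simp only [mem_filter, mem_univ, true_and, mem_union]
          tauto
        · rw [disjoint_left]
          intro v hv hv'
          rw [mem_filter] at hv hv'
          exact hv'.2.2.1 hv.2.2.1
      have e4 : (univ.filter fun v => L v ∧ A (nb v) ∧ pos (nb v) = i.castSucc).card +
          (univ.filter fun v => L v ∧ ¬ A (nb v) ∧ pos (nb v) = i.succ).card ≤
          (univ.filter fun v => L v ∧ g (nb v) = some i).card := by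
        rw [← card_union_of_disjoint]
        · refine card_le_card ?_
          intro v hv
          simp only [mem_filter, mem_univ, true_and, mem_union] at hv ⊢
          rcases hv with ⟨h1, h2, h3⟩ | ⟨h1, h2, h3⟩
          · exact ⟨h1, (gA _ _ h2).2 h3⟩
          · exact ⟨h1, (gB _ _ h2).2 h3⟩
        · rw [disjoint_left]
          intro v hv hv'
          rw [mem_filter] at hv hv'
          exact hv'.2.2.1 hv.2.2.1
      have e5 : ∀ j : Fin (K + 1), (univ.filter fun v => L v ∧ ¬ A (nb v) ∧ pos (nb v) = j).card =
          (b ∘ e) j := by
        intro j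
        simp only [hb, Function.comp]
        congr 1
        ext v
        simp only [mem_filter, mem_univ, true_and, hpos, Equiv.symm_apply_eq]
      have e6 := hmono (Fin.castSucc_lt_succ (i := i)).le
      rw [e5] at e3 e4
      omega
    -- the pairs
    have hpairs : (((X ×ˢ X).filter fun q => q.1 < q.2) \ coreP G L g X).card ≤ Y.card := by
      have hex : ∀ q ∈ ((X ×ˢ X).filter fun q => q.1 < q.2) \ coreP G L g X, ∃ x, L x ∧
          ((pos x = q.1.castSucc ∧ pos (nb x) = q.2.castSucc) ∨
          (pos x = q.2.castSucc ∧ pos (nb x) = q.1.castSucc)) := by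
        intro q hq
        rw [mem_sdiff, mem_filter, mem_product] at hq
        obtain ⟨⟨⟨hq1, hq2⟩, hlt⟩, hno⟩ := hq
        have hne : e q.1.castSucc ≠ e q.2.castSucc := by
          intro h
          have h1 := e.injective h
          rw [Fin.ext_iff] at h1
          exact absurd h1 (ne_of_lt (Fin.lt_def.1 hlt))
        obtain ⟨u, v, hu, hv, huv, h3⟩ := hfull _ _ hne
        have hpu : pos u = q.1.castSucc := by
          simp only [hpos, hu, Equiv.symm_apply_apply]
        have hpv : pos v = q.2.castSucc := by
          simp only [hpos, hv, Equiv.symm_apply_apply]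
        by_cases hLu : L u
        · have h4 : v = nb u := ((hL u hLu).2 v).1 huv
          exact ⟨u, hLu, Or.inl ⟨hpu, h4 ▸ hpv⟩⟩
        · by_cases hLv : L v
          · have h4 : u = nb v := ((hL v hLv).2 u).1 huv.symm
            exact ⟨v, hLv, Or.inr ⟨hpv, h4 ▸ hpu⟩⟩
          · exfalso
            have hAA : A u ∧ A v := by
              rcases h3 with h3 | h3 | h3
              · exact h3
              · exact absurd h3 hLu
              · exact absurd h3 hLv
            apply hno
            unfold coreP
            rw [mem_filter, mem_product]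
            exact ⟨⟨hq1, hq2⟩, hlt, u, v, hLu, hLv, huv, (gA u _ hAA.1).2 hpu,
              (gA v _ hAA.2).2 hpv⟩
      choose! x hx1 hx2 using hex
      refine card_le_card_of_injOn x ?_ ?_
      · intro q hq
        have hq' := hq
        rw [mem_coe, mem_sdiff, mem_filter, mem_product] at hq'
        rw [mem_coe, hY, mem_biUnion]
        rcases hx2 q hq with ⟨_, h2⟩ | ⟨_, h2⟩
        · exact ⟨q.2, hq'.1.1.2, by
            rw [mem_filter]
            exact ⟨mem_univ _, hx1 q hq, h2⟩⟩
        · exact ⟨q.1, hq'.1.1.1, by
            rw [mem_filter]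
            exact ⟨mem_univ _, hx1 q hq, h2⟩⟩
      · intro q hq q' hq' heq
        have m1 := hq
        have m2 := hq'
        rw [mem_coe, mem_sdiff, mem_filter] at m1 m2
        have l1 := m1.1.2
        have l2 := m2.1.2
        rw [Fin.lt_def] at l1 l2
        have h1 := hx2 q hq
        have h2 := hx2 q' hq'
        rw [heq] at h1
        rcases h1 with ⟨a1, a2⟩ | ⟨a1, a2⟩ <;> rcases h2 with ⟨b1, b2⟩ | ⟨b1, b2⟩
        · have k1 := a1.symm.trans b1
          have k2 := a2.symm.trans b2
          rw [Fin.ext_iff] at k1 k2
          exact Prod.ext (Fin.ext k1) (Fin.ext k2)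
        · have k1 := a1.symm.trans b1
          have k2 := a2.symm.trans b2
          rw [Fin.ext_iff] at k1 k2
          change (q.1 : ℕ) = q'.2 at k1
          change (q.2 : ℕ) = q'.1 at k2
          omega
        · have k1 := a1.symm.trans b1
          have k2 := a2.symm.trans b2
          rw [Fin.ext_iff] at k1 k2
          change (q.2 : ℕ) = q'.1 at k1
          change (q.1 : ℕ) = q'.2 at k2
          omega
        · have k1 := a1.symm.trans b1
          have k2 := a2.symm.trans b2
          rw [Fin.ext_iff] at k1 k2
          exact Prod.ext (Fin.ext k2) (Fin.ext k1)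
    have hsub : coreP G L g X ⊆ (X ×ˢ X).filter fun q => q.1 < q.2 := by
      intro q hq
      unfold coreP at hq
      rw [mem_filter] at hq ⊢
      exact ⟨hq.1, hq.2.1⟩
    rw [card_sdiff_of_subset hsub, card_lt_pairs] at hpairs
    omega

end Pool.Agent.PSA
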