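import Pool.Agent.PSA.Parity

/-!
# Bad edges with a penultimate end, trees of diameter at most 5
-/

open Finset

set_option autoImplicit false

namespace Pool.Agent.PSA

/-- `x` has exactly one neighbour. -/
def Leaf {V : Type} (G : SimpleGraph V) (x : V) : Prop := ∃ y, ∀ z, G.Adj x z ↔ z = y

lemma Leaf.eq {V : Type} {G : SimpleGraph V} {x y z : V} (h : Leaf G x) (hy : G.Adj x y)
    (hz : G.Adj x z) : y = z := by
  obtain ⟨w, hw⟩ := h
  rw [(hw y).1 hy, (hw z).1 hz]

lemma exists_of_not_leaf {V : Type} {G : SimpleGraph V} {x y : V} (h : ¬ Leaf G x)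
    (hy : G.Adj x y) : ∃ z, G.Adj x z ∧ z ≠ y := by
  by_contra hno
  push Not at hno
  refine h ⟨y, fun z => ⟨hno z, ?_⟩⟩
  rintro rfl
  exact hy

variable {V : Type} [Fintype V]

/-- The choice of the loose leaves: all leaves, but only one of the two vertices of a component
with two vertices. -/
noncomputable def Loose (G : SimpleGraph V) (v : V) : Prop :=
  Leaf G v ∧ ∀ y, G.Adj v y → Leaf G y → Fintype.equivFin V v < Fintype.equivFin V y

lemma loose_spec (G : SimpleGraph V) :
    ∃ nb : V → V, ∀ v, Loose G v → ¬ Loose G (nb v) ∧ ∀ x, G.Adj v x ↔ x = nb v := by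
  classical
  refine ⟨fun v => if h : Leaf G v then h.choose else v, fun v hv => ?_⟩
  have h1 := hv.1.choose_spec
  simp only [dif_pos hv.1]
  refine ⟨fun h2 => ?_, h1⟩
  have hadj : G.Adj v hv.1.choose := (h1 _).2 rfl
  exact lt_asymm (hv.2 _ hadj h2.1) (h2.2 _ hadj.symm hv.1)

/-- Adjacent vertices which are not loose are not leaves. -/
lemma not_leaf_of_not_loose {G : SimpleGraph V} {u v : V} (hu : ¬ Loose G u) (hv : ¬ Loose G v)
    (huv : G.Adj u v) : ¬ Leaf G u := by
  intro hl
  apply hv
  have h1 : ∃ y, G.Adj u y ∧ Leaf G y ∧ ¬ Fintype.equivFin V u < Fintype.equivFin V y := by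
    by_contra hno
    push Not at hno
    exact hu ⟨hl, hno⟩
  obtain ⟨y, hy, hly, hlt⟩ := h1
  have hyv : y = v := hl.eq hy huv
  subst hyv
  refine ⟨hly, fun z hz _ => ?_⟩
  have hzu : z = u := hly.eq hz huv.symm
  subst hzu
  refine lt_of_le_of_ne (not_lt.1 hlt) ?_
  intro h
  exact huv.ne' ((Fintype.equivFin V).injective h)

/-- If every bad edge has an end whose other neighbours are leaves, then the number of classes
drops by at most one. -/
theorem penult (G : SimpleGraph V) (hV : Nonempty V) {k : ℕ} (c : V → Fin k)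
    (hfull : ∀ i j, i ≠ j → ∃ u v, c u = i ∧ c v = j ∧ G.Adj u v)
    (hbad : ∀ u v, G.Adj u v → c u = c v →
      (∀ x, G.Adj u x → x ≠ v → Leaf G x) ∨ (∀ x, G.Adj v x → x ≠ u → Leaf G x)) :
    ∃ m, k ≤ m + 1 ∧ HasCC G m := by
  classical
  obtain ⟨nb, hnb⟩ := loose_spec G
  set ord := Fintype.equivFin V with hord
  set B : V → Prop := fun v => ¬ Loose G v ∧ ∃ u, ¬ Loose G u ∧ G.Adj v u ∧ c u = c v ∧
    (∀ x, G.Adj v x → x ≠ u → Leaf G x) ∧
    ((∀ x, G.Adj u x → x ≠ v → Leaf G x) → ord v < ord u) with hB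
  have hgoodB : ∀ u v, ¬ Loose G u → ¬ Loose G v → G.Adj u v → c u ≠ c v → ¬ B u := by
    intro u v hu hv huv hne hBu
    obtain ⟨_, u', _, _, hc, hpen, _⟩ := hBu
    refine not_leaf_of_not_loose hv hu huv.symm (hpen v huv ?_)
    rintro rfl
    exact hne hc.symm
  have hBiff : ∀ u v, ¬ Loose G u → ¬ Loose G v → G.Adj u v → c u = c v →
      (B u ↔ (∀ x, G.Adj u x → x ≠ v → Leaf G x) ∧
        ((∀ x, G.Adj v x → x ≠ u → Leaf G x) → ord u < ord v)) := by
    intro u v hu hv huv hcc
    constructor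
    · rintro ⟨_, u', hu', hadj, _, hpen, hlt⟩
      have huv' : u' = v := by
        by_contra hne
        exact not_leaf_of_not_loose hv hu huv.symm (hpen v huv (Ne.symm hne))
      subst huv'
      exact ⟨hpen, hlt⟩
    · rintro ⟨h1, h2⟩
      exact ⟨hu, v, hv, huv, hcc.symm, h1, h2⟩
  refine parity G hV (Loose G) nb hnb (fun v => ¬ B v) c ?_ ?_ ?_
  · intro u v hu hv huv hne
    have h1 := hgoodB u v hu hv huv hne
    have h2 := hgoodB v u hv hu huv.symm hne.symm
    exact ⟨fun _ => h2, fun _ => h1⟩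
  · intro u v hu hv huv hcc
    rw [not_not]
    have h1 := hBiff u v hu hv huv hcc
    have h2 := hBiff v u hv hu huv.symm hcc.symm
    have h3 := hbad u v huv hcc
    have hne : ord u ≠ ord v := fun h => huv.ne (ord.injective h)
    rw [h1, h2]
    by_cases p1 : ∀ x, G.Adj u x → x ≠ v → Leaf G x
    · by_cases p2 : ∀ x, G.Adj v x → x ≠ u → Leaf G x
      · constructor
        · intro h4
          refine ⟨p2, fun _ => ?_⟩
          have h5 : ¬ ord u < ord v := fun h => h4 ⟨p1, fun _ => h⟩
          exact lt_of_le_of_ne (not_lt.1 h5) hne.symm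
        · rintro ⟨_, h4⟩ ⟨_, h5⟩
          exact lt_asymm (h4 p1) (h5 p2)
      · constructor
        · intro h4
          exact absurd ⟨p1, fun h => absurd h p2⟩ h4
        · rintro ⟨h4, _⟩
          exact absurd h4 p2
    · have p2 : ∀ x, G.Adj v x → x ≠ u → Leaf G x := h3.resolve_left p1
      constructor
      · intro _
        exact ⟨p2, fun h => absurd h p1⟩
      · rintro _ ⟨h4, _⟩
        exact p1 h4
  · intro i j hij
    obtain ⟨u, v, hu, hv, huv⟩ := hfull i j hij
    refine ⟨u, v, hu, hv, huv, ?_⟩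
    by_cases hLu : Loose G u
    · exact Or.inr (Or.inl hLu)
    · by_cases hLv : Loose G v
      · exact Or.inr (Or.inr hLv)
      · have hne : c u ≠ c v := by
          rw [hu, hv]
          exact hij
        exact Or.inl ⟨hgoodB u v hLu hLv huv hne, hgoodB v u hLv hLu huv.symm hne.symm⟩

/-- In a tree a vertex has at most one neighbour closer to the root. -/
lemma closer_unique {T : SimpleGraph V} (hT : T.IsTree) (r x y z : V) (hy : T.Adj x y)
    (hz : T.Adj x z) (h1 : T.dist r x = T.dist r y + 1) (h2 : T.dist r x = T.dist r z + 1) :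
    y = z := by
  obtain ⟨p, hp, hpl⟩ := hT.connected.exists_path_of_dist r y
  obtain ⟨q, hq, hql⟩ := hT.connected.exists_path_of_dist r z
  have hp' : (p.concat hy.symm).IsPath := by
    refine SimpleGraph.Walk.isPath_of_length_eq_dist _ ?_
    rw [SimpleGraph.Walk.length_concat, hpl, h1]
  have hq' : (q.concat hz.symm).IsPath := by
    refine SimpleGraph.Walk.isPath_of_length_eq_dist _ ?_
    rw [SimpleGraph.Walk.length_concat, hql, h2]
  have heq := (hT.existsUnique_path r x).unique hp' hq'
  have h3 := congrArg SimpleGraph.Walk.penultimate heq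
  simpa using h3

/-- In a tree the neighbours of `x` other than the one closer to the root are farther. -/
lemma farther {T : SimpleGraph V} (hT : T.IsTree) (r x y z : V) (hy : T.Adj x y)
    (hz : T.Adj x z) (hyz : z ≠ y) (h1 : T.dist r x = T.dist r y + 1) :
    T.dist r z = T.dist r x + 1 := by
  rcases hT.dist_eq_dist_add_one_of_adj r hz with h2 | h2
  · exact absurd (closer_unique hT r x y z hy hz h1 h2).symm hyz
  · exact h2

/-- In a tree of diameter at most 5 two edges which both have two ends with a further neighbour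
which is not a leaf... : the second edge meets the first one. -/
lemma long_edge {T : SimpleGraph V} (hT : T.IsTree) (hd : ∀ u v, T.dist u v ≤ 5)
    {u v u₁ v₁ u₂ v₂ : V} (huv : T.Adj u v) (hu₁ : T.Adj u u₁) (hu₁v : u₁ ≠ v)
    (hu₂ : T.Adj u₁ u₂) (hu₂u : u₂ ≠ u) (hv₁ : T.Adj v v₁) (hv₁u : v₁ ≠ u)
    (hv₂ : T.Adj v₁ v₂) (hv₂v : v₂ ≠ v) {x y : V} (hxy : T.Adj x y) (hx : ¬ Leaf T x)
    (hy : ¬ Leaf T y) : x = u ∨ x = v ∨ y = u ∨ y = v := by
  by_contra hno
  push Not at hno
  obtain ⟨hxu, hxv, hyu, hyv⟩ := hno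
  -- the general argument for an edge `w z`, with `w` closer to `u`
  have key : ∀ w z, T.Adj w z → ¬ Leaf T z → w ≠ u → w ≠ v → T.dist u z = T.dist u w + 1 →
      False := by
    intro w z hwz hz hwu hwv hdist
    obtain ⟨z', hz', hz'w⟩ := exists_of_not_leaf hz hwz.symm
    have h1 : T.dist u z' = T.dist u z + 1 := farther hT u z w z' hwz.symm hz' hz'w hdist
    have hw1 : 1 ≤ T.dist u w := (hT.connected.pos_dist_of_ne (Ne.symm hwu))
    have h2 : T.dist z' u = T.dist u w + 2 := by
      rw [SimpleGraph.dist_comm, h1, hdist]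
    rcases hT.dist_eq_dist_add_one_of_adj z' huv with h3 | h3
    · -- `v` is closer to `z'`
      have h4 : T.dist z' u₁ = T.dist z' u + 1 := farther hT z' u v u₁ huv hu₁ hu₁v h3
      have h5 : T.dist z' u₂ = T.dist z' u₁ + 1 :=
        farther hT z' u₁ u u₂ hu₁.symm hu₂ hu₂u h4
      have h6 := hd z' u₂
      have h7 : T.dist u w = 1 := by omega
      have h8 : T.Adj u w := by
        rw [SimpleGraph.dist_eq_one_iff_adj] at h7
        exact h7
      have h9 : T.dist z' w ≤ 2 := by
        have := SimpleGraph.dist_le (SimpleGraph.Walk.cons hz'.symm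
          (SimpleGraph.Walk.cons hwz.symm SimpleGraph.Walk.nil))
        simpa using this
      have h10 : T.dist z' u = T.dist z' w + 1 := by
        rcases hT.dist_eq_dist_add_one_of_adj z' h8 with h10 | h10
        · exact h10
        · omega
      exact hwv (closer_unique hT z' u w v h8 huv h10 h3)
    · have h4 : T.dist z' v₁ = T.dist z' v + 1 := farther hT z' v u v₁ huv.symm hv₁ hv₁u h3
      have h5 : T.dist z' v₂ = T.dist z' v₁ + 1 :=
        farther hT z' v₁ v v₂ hv₁.symm hv₂ hv₂v h4
      have h6 := hd z' v₂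
      omega
  rcases hT.dist_eq_dist_add_one_of_adj u hxy with h | h
  · exact key y x hxy.symm hx hyu hyv h
  · exact key x y hxy hy hxu hxv h

end Pool.Agent.PSA
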